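import Pool.Agent.helper51.RMX.Spec

/-!
# Project rmx (MP_24e2e7_nt): row VLX (after the proof of row VL3 of the rb project by helper66, helper89)
-/

set_option autoImplicit false

namespace Pool.Agent.RMX

open Pool.Agent.RB NumberField IsDedekindDomain Module
open scoped nonZeroDivisors Real Classical IsMulCommutative

theorem VLX_gen {G : Type} [CommGroup G] [Finite G] (χ : G →* ℂˣ) :
    ∃ s : G, orderOf (χ s) = orderOf χ ∧ ∀ σ, ∃ i : ℕ, χ σ = χ s ^ i := by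
  have hfin : Finite χ.range := by
    have h1 : Function.Surjective χ.rangeRestrict := χ.rangeRestrict_surjective
    exact Finite.of_surjective _ h1
  obtain ⟨⟨ζ, hζ⟩, hgen⟩ := (isCyclic_subgroup_units χ.range).exists_generator
  obtain ⟨s, rfl⟩ := hζ
  have hpos : 0 < orderOf (χ s) := by
    have h1 : orderOf (χ s) ∣ orderOf s := orderOf_map_dvd χ s
    exact Nat.pos_of_dvd_of_pos h1 (orderOf_pos s)
  have hpow : ∀ σ, ∃ i : ℕ, χ σ = χ s ^ i := by
    intro σ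
    have h1 := hgen ⟨χ σ, ⟨σ, rfl⟩⟩
    obtain ⟨k, hk⟩ := h1
    have h2 : χ s ^ k = χ σ := congrArg Subtype.val hk
    have h3 : χ σ ∈ Subgroup.zpowers (χ s) := ⟨k, h2⟩
    have h4 : IsOfFinOrder (χ s) := orderOf_pos_iff.1 hpos
    obtain ⟨i, hi⟩ := h4.mem_powers_iff_mem_zpowers.2 h3
    exact ⟨i, hi.symm⟩
  refine ⟨s, ?_, hpow⟩
  apply Nat.dvd_antisymm
  · apply orderOf_dvd_of_pow_eq_one
    have h1 := pow_orderOf_eq_one χ
    have h2 := DFunLike.congr_fun h1 s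
    rw [MonoidHom.pow_apply] at h2
    exact h2
  · apply orderOf_dvd_of_pow_eq_one
    ext σ
    obtain ⟨i, hi⟩ := hpow σ
    rw [MonoidHom.pow_apply, hi, ← pow_mul, mul_comm, pow_mul, pow_orderOf_eq_one, one_pow]
    rfl

theorem VLX (hCYX : CYX_stmt) (hPSX : PSX_stmt) : VLX_stmt := by
  intro G _ _ c χ a j q hq hq2 ha hj hord hc h2 y n d z hd hz
  obtain ⟨s, hs, hpow⟩ := VLX_gen χ
  choose i hi using hpow
  set ζ : ℂˣ := χ s with hζ
  have hprim : IsPrimitiveRoot (ζ : ℂ) (2 ^ a * q ^ j) := by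
    rw [IsPrimitiveRoot.coe_units_iff, IsPrimitiveRoot.iff_orderOf, hs, hord]
  let p : Polynomial ℚ := Polynomial.C ((1 : ℚ) / 2 ^ n) *
    ∑ σ ∈ y.coeff.support, Polynomial.C (y.coeff σ) * Polynomial.X ^ i σ
  have hp : ∀ k : ℕ, Polynomial.aeval ((ζ : ℂ) ^ k) p = evQ (χ ^ k) y / 2 ^ n := by
    intro k
    rw [VL3_ev, div_eq_mul_inv, mul_comm]
    simp only [p, map_mul, map_sum, Polynomial.aeval_C, map_pow, Polynomial.aeval_X]
    congr 1
    · simp
    · apply Finset.sum_congr rfl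
      intro σ _
      rw [MonoidHom.pow_apply, hi σ, Units.val_pow_eq_pow_val, Units.val_pow_eq_pow_val, ← pow_mul,
        ← pow_mul, mul_comm k (i σ)]
      rfl
  obtain ⟨-, -, -, hprod⟩ := hPSX G c χ a j q hq hq2 ha hj hord hc
  have h3 := hprod (fun ψ => evQ ψ y / 2 ^ n)
  rw [Finset.prod_div_distrib, Finset.prod_const] at h3
  have h4 : ((2 : ℂ) ^ n) ^ (PsN χ.ker (χ ^ q).ker c).card ≠ 0 := pow_ne_zero _ (pow_ne_zero _ two_ne_zero)
  have h5 : (d : ℂ) * ∏ i ∈ (Finset.range (2 ^ a * q ^ j)).filter (fun i => Nat.Coprime i (2 ^ a * q ^ j)),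
      Polynomial.aeval ((ζ : ℂ) ^ i) p = (z : ℂ) := by
    have h6 : ∏ i ∈ (Finset.range (2 ^ a * q ^ j)).filter (fun i => Nat.Coprime i (2 ^ a * q ^ j)),
      Polynomial.aeval ((ζ : ℂ) ^ i) p = ∏ i ∈ (Finset.range (2 ^ a * q ^ j)).filter (fun i => Nat.Coprime i (2 ^ a * q ^ j)),
        (evQ (χ ^ i) y / 2 ^ n) := Finset.prod_congr rfl (fun k _ => hp k)
    rw [h6, ← h3, ← mul_div_assoc, hz, mul_comm, mul_div_assoc, div_self h4, mul_one]
  obtain ⟨d', hd', hint⟩ := hCYX a j q (ζ : ℂ) ha hq hq2 h2 hprim p z d hd h5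
  refine ⟨d', hd', ?_⟩
  have h7 := hp 1
  have h8 : χ ^ 1 = χ := pow_one χ
  rw [pow_one, h8] at h7
  rw [h7] at hint
  exact hint

end Pool.Agent.RMX
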